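import Mathlib

/-!
# No induced-metric-based rule embeds diversities into `ℓ₁` with distortion `O(√n)`

Every induced-metric-based embedding rule has distortion at least `⌊n/2⌋ - 1` on some `n`-point
diversity, so that the upper bound `n` is optimal up to a factor two.

Idea: split `n` points into two halves `A` and `B`. The diversity
`δ(S) = |S ∩ B| + min(|S ∩ A|, 2) - 1` (`S` non-empty) induces the uniform metric; it is
diameter-like on `A`, where `δ(A) = 1`, and tree-like on `B`, where `δ(B) = |B| - 1`. The rule maps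
the uniform metric space by a map not depending on which of the halves is the diameter-like one,
and the larger one of the images of the two halves is chosen to be it.
-/

set_option autoImplicit false

namespace Pool.Agent.Results.MP_00e3a8_gt.NoSqrtRule

/-- A diversity on `X`: a function `δ` on the finite subsets of `X` with `δ ≥ 0`, `δ(A) = 0` iff
`|A| ≤ 1`, and `δ(A ∪ B) ≤ δ(A ∪ C) + δ(B ∪ C)` for `C ≠ ∅`. -/
structure Diversity (X : Type) [DecidableEq X] where
  /-- the value on finite subsets -/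
  δ : Finset X → ℝ
  nonneg : ∀ A : Finset X, 0 ≤ δ A
  eq_zero_iff : ∀ A : Finset X, δ A = 0 ↔ A.card ≤ 1
  triangle : ∀ A B C : Finset X, C.Nonempty → δ (A ∪ B) ≤ δ (A ∪ C) + δ (B ∪ C)

/-- The metric axioms for a function `d` of two variables. -/
structure IsMetric {X : Type} (d : X → X → ℝ) : Prop where
  nonneg : ∀ x y, 0 ≤ d x y
  eq_zero_iff : ∀ x y, d x y = 0 ↔ x = y
  symm : ∀ x y, d x y = d y x
  triangle : ∀ x y z, d x z ≤ d x y + d y z

/-- The induced metric of a diversity: `d(x, y) = δ({x, y})`. -/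
def Diversity.dist {X : Type} [DecidableEq X] (D : Diversity X) (x y : X) : ℝ := D.δ {x, y}

theorem Diversity.isMetric {X : Type} [DecidableEq X] (D : Diversity X) : IsMetric D.dist where
  nonneg x y := D.nonneg _
  eq_zero_iff x y := by
    rw [Diversity.dist, D.eq_zero_iff]
    constructor
    · intro h
      by_contra hne
      rw [Finset.card_pair hne] at h
      omega
    · rintro rfl
      simp
  symm x y := by rw [Diversity.dist, Diversity.dist, Finset.pair_comm]
  triangle x y z := by
    have h := D.triangle {x} {z} {y} (Finset.singleton_nonempty y)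
    have e1 : ({x} : Finset X) ∪ {z} = {x, z} := rfl
    have e2 : ({x} : Finset X) ∪ {y} = {x, y} := rfl
    have e3 : ({z} : Finset X) ∪ {y} = {y, z} := by rw [Finset.pair_comm]; rfl
    rw [e1, e2, e3] at h
    exact h

/-- The `ℓ₁` diversity on `ℝ^k`: the sum over the coordinates of the maximum of `|a_i - b_i|` over
`a, b ∈ S` (and `0` for the empty set). -/
noncomputable def ellOne {k : ℕ} (S : Set (Fin k → ℝ)) : ℝ :=
  ∑ i, sSup {t : ℝ | ∃ a ∈ S, ∃ b ∈ S, t = |a i - b i|}

/-- The map `φ : X → ℝ^k` has distortion `c` as a map from the diversity `D` to the `ℓ₁`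
diversity. -/
def HasDistortion {X : Type} [DecidableEq X] (D : Diversity X) {k : ℕ} (φ : X → Fin k → ℝ)
    (c : ℝ) : Prop :=
  ∃ c₁ c₂ : ℝ, 0 < c₁ ∧ 0 < c₂ ∧ c = c₁ * c₂ ∧
    ∀ A : Finset X, 1 / c₁ * D.δ A ≤ ellOne (φ '' A) ∧ ellOne (φ '' A) ≤ c₂ * D.δ A

/-- An induced-metric-based embedding rule: it assigns to every finite metric space `(X, d)` a
dimension `k` and a map `X → ℝ^k`. -/
def Rule : Type 1 :=
  ∀ (X : Type) [Finite X] (d : X → X → ℝ), IsMetric d → Σ k : ℕ, (X → Fin k → ℝ)

/-- The map which the rule `Φ` yields for the diversity `D`: the one of its induced metric. -/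
def Rule.map (Φ : Rule) {X : Type} [Finite X] [DecidableEq X] (D : Diversity X) :
    X → Fin (Φ X D.dist D.isMetric).1 → ℝ :=
  (Φ X D.dist D.isMetric).2

/-! ## The diversity which is tree-like on `B` and diameter-like on the complement -/

/-- the rank-like function -/
def rk {X : Type} [DecidableEq X] (B S : Finset X) : ℕ := (S ∩ B).card + min (S \ B).card 2

theorem rk_pos {X : Type} [DecidableEq X] (B : Finset X) {S : Finset X} (h : S.Nonempty) :
    1 ≤ rk B S := by
  have h1 := Finset.card_inter_add_card_sdiff S B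
  have h2 : 0 < S.card := Finset.card_pos.2 h
  unfold rk
  omega

theorem rk_tri {X : Type} [DecidableEq X] (B U V C : Finset X) :
    rk B (U ∪ V) + rk B C ≤ rk B (U ∪ C) + rk B (V ∪ C) := by
  have key : ∀ U V C : Finset X, (U ∪ V).card + C.card ≤ (U ∪ C).card + (V ∪ C).card := by
    intro U V C
    have h1 := Finset.card_union_add_card_inter (U ∪ C) (V ∪ C)
    have h2 : (U ∪ V).card ≤ ((U ∪ C) ∪ (V ∪ C)).card := Finset.card_le_card (by
      intro x hx
      simp only [Finset.mem_union] at hx ⊢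
      tauto)
    have h3 : C.card ≤ ((U ∪ C) ∩ (V ∪ C)).card := Finset.card_le_card (by
      intro x hx
      simp only [Finset.mem_union, Finset.mem_inter] at hx ⊢
      tauto)
    omega
  have h1 := key (U ∩ B) (V ∩ B) (C ∩ B)
  have h2 := key (U \ B) (V \ B) (C \ B)
  have h3 : (C \ B).card ≤ (U \ B ∪ C \ B).card :=
    Finset.card_le_card Finset.subset_union_right
  have h4 : (C \ B).card ≤ (V \ B ∪ C \ B).card :=
    Finset.card_le_card Finset.subset_union_right
  simp only [rk, Finset.union_inter_distrib_right, Finset.union_sdiff_distrib]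
  omega

/-- the diversity -/
noncomputable def div {X : Type} [DecidableEq X] (B : Finset X) : Diversity X where
  δ S := if S = ∅ then 0 else (rk B S : ℝ) - 1
  nonneg S := by
    show (0 : ℝ) ≤ if S = ∅ then 0 else (rk B S : ℝ) - 1
    split_ifs with h
    · exact le_rfl
    · have h1 := rk_pos B (Finset.nonempty_iff_ne_empty.2 h)
      have h2 : (1 : ℝ) ≤ rk B S := by exact_mod_cast h1
      linarith
  eq_zero_iff S := by
    show (if S = ∅ then (0 : ℝ) else (rk B S : ℝ) - 1) = 0 ↔ _
    split_ifs with h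
    · subst h
      simp
    · have h1 := Finset.card_inter_add_card_sdiff S B
      have h2 : 0 < S.card := Finset.card_pos.2 (Finset.nonempty_iff_ne_empty.2 h)
      have h3 : ((rk B S : ℝ) - 1 = 0) ↔ rk B S = 1 := by
        rw [sub_eq_zero]
        exact_mod_cast Iff.rfl
      rw [h3]
      unfold rk
      omega
  triangle U V C hC := by
    have hU : U ∪ C ≠ ∅ := (hC.mono Finset.subset_union_right).ne_empty
    have hV : V ∪ C ≠ ∅ := (hC.mono Finset.subset_union_right).ne_empty
    show (if U ∪ V = ∅ then (0 : ℝ) else (rk B (U ∪ V) : ℝ) - 1) ≤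
      (if U ∪ C = ∅ then (0 : ℝ) else (rk B (U ∪ C) : ℝ) - 1) +
        (if V ∪ C = ∅ then (0 : ℝ) else (rk B (V ∪ C) : ℝ) - 1)
    rw [if_neg hU, if_neg hV]
    have h1 : (1 : ℝ) ≤ rk B (U ∪ C) := by
      exact_mod_cast rk_pos B (Finset.nonempty_iff_ne_empty.2 hU)
    have h2 : (1 : ℝ) ≤ rk B (V ∪ C) := by
      exact_mod_cast rk_pos B (Finset.nonempty_iff_ne_empty.2 hV)
    split_ifs with h
    · linarith
    · have h3 : (rk B (U ∪ V) : ℝ) + rk B C ≤ rk B (U ∪ C) + rk B (V ∪ C) := by
        exact_mod_cast rk_tri B U V C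
      have h4 : (1 : ℝ) ≤ rk B C := by exact_mod_cast rk_pos B hC
      linarith

theorem div_apply {X : Type} [DecidableEq X] (B : Finset X) {S : Finset X} (h : S.Nonempty) :
    (div B).δ S = (rk B S : ℝ) - 1 := if_neg h.ne_empty

/-- the uniform metric -/
def unif {X : Type} [DecidableEq X] (x y : X) : ℝ := if x = y then 0 else 1

theorem div_dist {X : Type} [DecidableEq X] (B : Finset X) : (div B).dist = unif := by
  funext x y
  by_cases h : x = y
  · rw [(div B).isMetric.eq_zero_iff x y |>.2 h, unif, if_pos h]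
  · rw [unif, if_neg h, Diversity.dist, div_apply B ⟨x, by simp⟩]
    have h1 := Finset.card_inter_add_card_sdiff {x, y} B
    rw [Finset.card_pair h] at h1
    have h2 : rk B {x, y} = 2 := by
      unfold rk
      omega
    rw [h2]
    norm_num

theorem rule_eq (Φ : Rule) {X : Type} [Finite X] {d d' : X → X → ℝ} (h : d = d')
    (hd : IsMetric d) (hd' : IsMetric d') : Φ X d hd = Φ X d' hd' := by
  subst h
  rfl

/-- the value of the rule on the image of a set -/
noncomputable def val (Φ : Rule) {X : Type} [Finite X] {d : X → X → ℝ} (hd : IsMetric d)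
    (S : Finset X) : ℝ := ellOne ((Φ X d hd).2 '' S)

theorem val_eq (Φ : Rule) {X : Type} [Finite X] {d d' : X → X → ℝ} (h : d = d')
    (hd : IsMetric d) (hd' : IsMetric d') (S : Finset X) : val Φ hd S = val Φ hd' S := by
  subst h
  rfl

/-- the main estimate: `A` is diameter-like for `div B` -/
theorem main (Φ : Rule) {X : Type} [Finite X] [DecidableEq X] (A B : Finset X)
    (hAB : Disjoint A B) (hA : 2 ≤ A.card) (hB : 2 ≤ B.card)
    (hle : val Φ (div B).isMetric B ≤ val Φ (div B).isMetric A) {c : ℝ}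
    (hc : HasDistortion (div B) (Φ.map (div B)) c) : (B.card : ℝ) - 1 ≤ c := by
  obtain ⟨c₁, c₂, h1, h2, rfl, h⟩ := hc
  have eA := (h A).2
  have eB := (h B).1
  have dA : (div B).δ A = 1 := by
    rw [div_apply B (Finset.card_pos.1 (by omega))]
    have : rk B A = 2 := by
      unfold rk
      rw [Finset.disjoint_iff_inter_eq_empty.1 hAB, Finset.sdiff_eq_self_of_disjoint hAB,
        Finset.card_empty]
      omega
    rw [this]
    norm_num
  have dB : (div B).δ B = (B.card : ℝ) - 1 := by
    rw [div_apply B (Finset.card_pos.1 (by omega))]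
    have : rk B B = B.card := by
      unfold rk
      rw [Finset.inter_self, Finset.sdiff_self, Finset.card_empty]
      omega
    rw [this]
  rw [dA, mul_one] at eA
  rw [dB] at eB
  have e : 1 / c₁ * ((B.card : ℝ) - 1) ≤ c₂ := eB.trans (le_trans hle eA)
  rw [one_div, inv_mul_le_iff₀ h1] at e
  exact e

theorem lower (Φ : Rule) (n : ℕ) : ∃ D : Diversity (Fin n), ∀ c : ℝ,
    HasDistortion D (Φ.map D) c → ((n / 2 : ℕ) : ℝ) - 1 ≤ c := by
  classical
  by_cases hn : n < 4
  · refine ⟨div ∅, ?_⟩
    rintro c ⟨c₁, c₂, h1, h2, rfl, -⟩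
    have h3 : n / 2 ≤ 1 := by omega
    have h4 : ((n / 2 : ℕ) : ℝ) ≤ 1 := by exact_mod_cast h3
    have h5 := mul_pos h1 h2
    linarith
  · push Not at hn
    obtain ⟨A, hAu, hAc⟩ := Finset.exists_subset_card_eq
      (s := (Finset.univ : Finset (Fin n))) (n := n / 2) (by
        rw [Finset.card_univ, Fintype.card_fin]; omega)
    have hBc : Aᶜ.card = n - n / 2 := by
      rw [Finset.card_compl, Fintype.card_fin, hAc]
    have hdis : Disjoint A Aᶜ := disjoint_compl_right
    rcases le_total (val Φ (div Aᶜ).isMetric Aᶜ) (val Φ (div Aᶜ).isMetric A) with h | h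
    · refine ⟨div Aᶜ, fun c hc => ?_⟩
      have h1 := main Φ A Aᶜ hdis (by omega) (by omega) h hc
      have h2 : n / 2 ≤ Aᶜ.card := by omega
      have h3 : ((n / 2 : ℕ) : ℝ) ≤ (Aᶜ.card : ℝ) := by exact_mod_cast h2
      linarith
    · refine ⟨div A, fun c hc => ?_⟩
      have e := fun S => val_eq Φ ((div_dist Aᶜ).trans (div_dist A).symm)
        (div Aᶜ).isMetric (div A).isMetric S
      rw [e, e] at h
      have h1 := main Φ Aᶜ A hdis.symm (by omega) (by omega) h hc
      rw [hAc] at h1
      exact h1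

/-- **Q1 is false.** Every induced-metric-based embedding rule has distortion at least `⌊n/2⌋ - 1`
on some diversity on `n` points, for every `n`. In particular there are no constant `C` and no such
rule with distortion at most `C √n` on all `n`-point diversities, `n ≥ 2`. -/
theorem result :
    (∀ (Φ : Rule) (n : ℕ), ∃ D : Diversity (Fin n), ∀ c : ℝ,
      HasDistortion D (Φ.map D) c → ((n / 2 : ℕ) : ℝ) - 1 ≤ c) ∧
    ¬ ∃ (C : ℝ) (Φ : Rule), ∀ n : ℕ, 2 ≤ n → ∀ (X : Type) [Fintype X] [DecidableEq X],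
      Fintype.card X = n → ∀ D : Diversity X, ∃ c : ℝ,
        c ≤ C * Real.sqrt n ∧ HasDistortion D (Φ.map D) c := by
  refine ⟨lower, ?_⟩
  rintro ⟨C, Φ, h⟩
  obtain ⟨m, hm⟩ := exists_nat_gt (max (2 * C) 0)
  have hm1 : 2 * C < m := lt_of_le_of_lt (le_max_left _ _) hm
  have hm0 : (0 : ℝ) < m := lt_of_le_of_lt (le_max_right _ _) hm
  have hm0' : 1 ≤ m := by
    have : 0 < m := by exact_mod_cast hm0
    omega
  -- take `n = (2 m)^2`, with `√n = 2 m`
  obtain ⟨D, hD⟩ := lower Φ ((2 * m + 2) ^ 2)
  obtain ⟨c, hc1, hc2⟩ := h ((2 * m + 2) ^ 2) (by nlinarith) (Fin ((2 * m + 2) ^ 2))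
    (Fintype.card_fin _) D
  have h1 := hD c hc2
  have h2 : Real.sqrt (((2 * m + 2) ^ 2 : ℕ) : ℝ) = 2 * m + 2 := by
    rw [show (((2 * m + 2) ^ 2 : ℕ) : ℝ) = ((2 * m + 2 : ℝ)) ^ 2 by push_cast; ring]
    exact Real.sqrt_sq (by positivity)
  rw [h2] at hc1
  have h3 : ((2 * m + 2) ^ 2) / 2 = 2 * (m + 1) ^ 2 := by
    rw [show (2 * m + 2) ^ 2 = 2 * (2 * (m + 1) ^ 2) by ring]
    exact Nat.mul_div_cancel_left _ (by norm_num)
  rw [h3] at h1
  push_cast at h1
  nlinarith
end Pool.Agent.Results.MP_00e3a8_gt.NoSqrtRule
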